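import Pool.Agent.Helper64.FL.StC

/-! MP_866009_co: a cycle of connections with all signs different gives an even ring. -/

set_option autoImplicit false

namespace Pool.Agent.Helper64.FL

open Pool.Agent.Helper64.CT Pool.Agent.Helper64.DT
open Pool.Agent.Helper64.HG (Ovl Model Circ IC HellyCircle ChordModel)

theorem hc1_per {α : Type} (f : ℕ → α) (m : ℕ) (h : ∀ i, f (i + m) = f i) (i : ℕ) :
    f (i % m) = f i := by
  have h1 : Function.Periodic f m := h
  exact h1.map_mod_nat i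

theorem hc1_ne {V : Type} (G : SimpleGraph V) (Q : Set V) (m : ℕ) (q : ℕ → V) (P : ℕ → List V)
    (u w : ℕ → V) (hB : BCy G Q m q P u w) (i j : ℕ) (hi : i < m) (hj : j < m) (hij : i ≠ j) :
    q i ≠ q j := by
  rcases lt_or_gt_of_ne hij with h | h
  · exact hB.inj i j h (by omega)
  · exact fun e => hB.inj j i h (by omega) e.symm

theorem hc1_ray {V : Type} (G : SimpleGraph V) (Q : Set V) (hD : DF G) (hQ : MaxC G Q)
    (x y v : V) (h1 : RayQ G Q x v) (h2 : RayQ G Q y v) (hxy : x ≠ y) : False :=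
  (MaxC.out hD hQ h1.1 h2.1 hxy h1.2.2 h1.2.1).2 h2.2.1

theorem hc1_sep {V : Type} [Finite V] (hHCB : ST_HCB) (hHCC : ST_HCC) (hBCF : ST_BCF)
    (G : SimpleGraph V) (Q : Set V) (σ : V → Bool) (hE : EnvC G Q σ) (m : ℕ) (q : ℕ → V)
    (P : ℕ → List V) (u w : ℕ → V) (hB : BCy G Q m q P u w) (h4 : 4 ≤ m) (hev : Even m)
    (hs : ∀ i, σ (u i) ≠ σ (w i)) (i j : ℕ) (hj : j < m) (hij : i < j) :
    ∀ x ∈ P i, ∀ y ∈ P j, x ≠ y ∧ ¬ G.Adj x y := by
  have hD := hE.red.df
  have hQ := hE.mx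
  have hdis : ∀ i j, i + 2 ≤ j → j + 2 ≤ i + m → ∀ p ∈ P i, p ∉ P j := by
    intro i j h1 h2 p hp hp'
    rcases hHCB V G Q σ hE m q P u w hB h4 i j h1 h2 p hp p hp' (Or.inl rfl) with
      ⟨_, e1, e2⟩ | ⟨_, e1, e2⟩
    · refine hc1_ray G Q hD hQ (q (i + 1)) (q (i + 2)) p ?_ ?_ (hB.inj _ _ (by omega) (by omega))
      · rw [e1]; exact hB.rW (i + 1)
      · rw [e2]; exact hB.rU (i + 2)
    · refine hc1_ray G Q hD hQ (q i) (q (j + 1)) p ?_ ?_ (hB.inj _ _ (by omega) (by omega))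
      · rw [e1]; exact hB.rU i
      · rw [e2]; exact hB.rW (j + 1)
  have hcc := hHCC V G Q σ hE m q P u w hB h4 hev hs hdis
  have h5 := (hBCF V G Q σ hE m q P u w hB).2.2.2.2
  intro x hx y hy
  by_cases c1 : j = i + 1
  · subst c1
    exact h5 i h4 (fun e => hs (i + 1) e.symm) x hx y hy
  by_cases c2 : j + 1 = i + m
  · have hi0 : i = 0 := by omega
    subst hi0
    have e : P (j + 1) = P 0 := by
      rw [c2]; exact hB.pP 0
    have h := h5 j h4 (fun e => hs (j + 1) e.symm) y hy x (by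
      show x ∈ P (j + 1)
      rw [e]; exact hx)
    exact ⟨fun e => h.1 e.symm, fun e => h.2 e.symm⟩
  have k1 : i + 2 ≤ j := by omega
  have k2 : j + 2 ≤ i + m := by omega
  refine ⟨fun e => hdis i j k1 k2 x hx (e ▸ hy), fun ha => ?_⟩
  rcases hHCB V G Q σ hE m q P u w hB h4 i j k1 k2 x hx y hy (Or.inr ha) with
    ⟨_, e1, e2⟩ | ⟨e0, e1, e2⟩
  · rw [e1, e2] at ha
    exact hcc i ha
  · rw [e1, e2] at ha
    have e3 : u (j + 2) = u i := by rw [e0]; exact hB.pu i
    rw [← e3] at ha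
    exact hcc j ha.symm

theorem st_HC1 (hHCA : ST_HCA) (hHCB : ST_HCB) (hHCC : ST_HCC) (hBCF : ST_BCF) : ST_HC1 := by
  intro V _ G Q σ hE m q P u w hB h4 hev hs
  have hD := hE.red.df
  have hQ := hE.mx
  have hm : 0 < m := by omega
  have hq1 : ∀ i, q ((i + 1) % m) = q (i + 1) := fun i => hc1_per q m hB.pq (i + 1)
  refine ⟨m, q, P, ⟨by omega, ?_, ?_, ?_, ?_, ?_, ?_, ?_, ?_⟩, hev, h4, ?_⟩
  · intro i j hi hj hij
    exact hQ.1 _ (hB.rU i).1 _ (hB.rU j).1 (hc1_ne G Q m q P u w hB i j hi hj hij)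
  · intro i _
    by_contra hlt
    have hl : (P i).length < 2 := by omega
    have h1 := hB.hd i
    have h2 := hB.lt i
    rcases hP : P i with _ | ⟨a, _ | ⟨b, l⟩⟩
    · rw [hP] at h1
      exact absurd h1 (by simp)
    · rw [hP] at h1 h2
      have e1 : a = u i := by simpa using h1
      have e2 : a = w (i + 1) := by simpa using h2
      refine hc1_ray G Q hD hQ (q i) (q (i + 1)) a ?_ ?_ (hB.inj _ _ (by omega) (by omega))
      · rw [e1]; exact hB.rU i
      · rw [e2]; exact hB.rW (i + 1)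
    · rw [hP] at hl
      simp at hl
  · intro i _
    exact hB.ip i
  · intro i _ x hx
    constructor
    · intro ha
      rw [(hB.zz i x hx).2.1 ha]
      exact hB.hd i
    · intro h
      rw [hB.hd i] at h
      have e : u i = x := by simpa using h
      rw [← e]
      exact (hB.rU i).2.1
  · intro i _ x hx
    rw [hq1 i]
    constructor
    · intro ha
      rw [(hB.zz i x hx).2.2 ha]
      exact hB.lt i
    · intro h
      rw [hB.lt i] at h
      have e : w (i + 1) = x := by simpa using h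
      rw [← e]
      exact (hB.rW (i + 1)).2.1
  · intro i j hi hj h1 h2 x hx
    refine (hB.zz i x hx).1.2 (q j) (hB.rU j).1 (hc1_ne G Q m q P u w hB j i hj hi h1) ?_
    rw [← hq1 i]
    exact hc1_ne G Q m q P u w hB j _ hj (Nat.mod_lt _ hm) h2
  · intro i j _ _ x hx e
    exact (hB.zz i x hx).1.1 (e ▸ (hB.rU j).1)
  · intro i j hi hj hij x hx y hy
    rcases lt_or_gt_of_ne hij with h | h
    · exact hc1_sep hHCB hHCC hBCF G Q σ hE m q P u w hB h4 hev hs i j hj h x hx y hy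
    · have h' := hc1_sep hHCB hHCC hBCF G Q σ hE m q P u w hB h4 hev hs j i hi h y hy x hx
      exact ⟨fun e => h'.1 e.symm, fun e => h'.2 e.symm⟩
  · intro x
    rcases hHCA V G Q σ hE m q P u w hB h4 hev hs x with ⟨i, hi⟩ | ⟨i, hi⟩
    · exact Or.inl ⟨i % m, Nat.mod_lt _ hm, by rw [hc1_per q m hB.pq i]; exact hi⟩
    · exact Or.inr ⟨i % m, Nat.mod_lt _ hm, by rw [hc1_per P m hB.pP i]; exact hi⟩

end Pool.Agent.Helper64.FL
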